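import Mathlib
import Pool.Agent.Lib.MP_b573ec_lc_HM.Core
import Pool.Agent.Lib.MP_69a69c_lc_SQ.BitQ

/-!
# Graphs from matrices modulo 3

As in `MP_69a69c_lc_SQ/Enc.lean`, with counters and entries modulo `3`: the graph has a clique of
`M + 1 + U` vertices if and only if some column has the sum `2`.
-/

set_option autoImplicit false

namespace Pool.Agent.HQ

open Pool.Agent.LT (Inp)
open Pool.Agent.ST (getBit)
open Pool.Agent.SQ (cell_inj cell_lt)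

/-- the entry of the matrix as a number -/
def ent3 {M N : ℕ} (Y : Fin M → Fin N → ZMod 3) (j t : ℕ) : ℕ :=
  if h : j < M ∧ t < N then (Y ⟨j, h.1⟩ ⟨t, h.2⟩).val else 0

/-- the vertex with counter `c` and entry `σ` in the row `a` of the group `j` -/
def vtx3 (ρ : ℕ → ℕ) (j a c σ : ℕ) : ℕ := ρ j + (a * 9 + (3 * c + σ))

/-- `r` is the vertex `(j, a, c, σ)` -/
def IsV3 (qa M : ℕ) (ρ : ℕ → ℕ) (r j a c σ : ℕ) : Prop :=
  j < M ∧ a < qa ∧ c < 3 ∧ σ < 3 ∧ r = vtx3 ρ j a c σ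

/-- the edges (between `i` and `r`, for `i < r`) -/
def Edge3 (qa qb U M : ℕ) (ρ : ℕ → ℕ) (Y : Fin M → Fin (qa * qb) → ZMod 3) (i r : ℕ) : Prop :=
  (qb ≤ r ∧ r < qb + U) ∨
  (qb ≤ i ∧ i < qb + U ∧ ∃ j a c σ, IsV3 qa M ρ r j a c σ) ∨
  (i < qb ∧ ∃ j a c σ, IsV3 qa M ρ r j a c σ ∧ ent3 Y j (a * qb + i) = σ ∧
    (j = 0 → c = 0) ∧ (j + 1 = M → (c + σ) % 3 = 2)) ∨
  ∃ a j c σ j' c' σ', IsV3 qa M ρ i j a c σ ∧ IsV3 qa M ρ r j' a c' σ' ∧ j < j' ∧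
    (j' = j + 1 → c' = (c + σ) % 3)

open Classical in
/-- the input -/
noncomputable def enc3 (n qa qb U M : ℕ) (ρ : ℕ → ℕ) (Y : Fin M → Fin (qa * qb) → ZMod 3) :
    Inp (n.choose 2) := fun e =>
  decide (∃ i r, i < r ∧ (e : ℕ) = r.choose 2 + i ∧ Edge3 qa qb U M ρ Y i r)

theorem getBit_enc3 {n qa qb U M : ℕ} {ρ : ℕ → ℕ} (Y : Fin M → Fin (qa * qb) → ZMod 3) {i r : ℕ}
    (hi : i < r) (hr : r < n) :
    getBit (enc3 n qa qb U M ρ Y) (r.choose 2 + i) = true ↔ Edge3 qa qb U M ρ Y i r := by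
  classical
  unfold getBit
  rw [dif_pos (cell_lt hi hr)]
  unfold enc3
  simp only [decide_eq_true_eq]
  constructor
  · rintro ⟨i', r', hi', he, h⟩
    obtain ⟨rfl, rfl⟩ := cell_inj hi hi' he
    exact h
  · intro h
    exact ⟨i, r, hi, rfl, h⟩

end Pool.Agent.HQ
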