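import Mathlib
import Pool.Agent.Lib.MP_b573ec_lc_HQ.Enc3

/-!
# Changes inside blocks
-/

set_option autoImplicit false

namespace Pool.Agent.HQ

open Pool.Agent.LT (Inp)
open Pool.Agent.ST (mixIn InBlk)
open Pool.Agent.SQ (choose_two_mono choose_succ_two)
open Pool.Agent.HM (InI AgreeI)

/-- the cell of a vertex of the group `j` is in the block `j` without its margins -/
private theorem in_block {qa M L b B i r j a c σ : ℕ} {ρ : ℕ → ℕ}
    (hL : ∀ j < M, L + j * b + B ≤ (ρ j).choose 2)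
    (hR : ∀ j < M, (ρ j + qa * 9).choose 2 + B ≤ L + (j + 1) * b)
    (hir : i < r) (hv : IsV3 qa M ρ r j a c σ) :
    L + j * b + B ≤ r.choose 2 + i ∧ r.choose 2 + i + B < L + (j + 1) * b := by
  obtain ⟨v1, v2, v3, v4, v5⟩ := hv
  unfold vtx3 at v5
  have h1 : (a + 1) * 9 ≤ qa * 9 := Nat.mul_le_mul_right _ v2
  have h2 : ρ j ≤ r := by omega
  have h3 : r + 1 ≤ ρ j + qa * 9 := by omega
  have h4 := choose_two_mono h2
  have h5 := choose_two_mono h3
  rw [choose_succ_two] at h5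
  have h6 := hL j v1
  have h7 := hR j v1
  omega

/-- an input bit depends only on the entries in its own row -/
private theorem enc3_congr {n qa qb U M : ℕ} {ρ : ℕ → ℕ}
    (Y Y' : Fin M → Fin (qa * qb) → ZMod 3) (e : Fin (n.choose 2))
    (h : ∀ i r j a c σ, i < r → (e : ℕ) = r.choose 2 + i → IsV3 qa M ρ r j a c σ →
      ∀ hj : j < M, Y ⟨j, hj⟩ = Y' ⟨j, hj⟩) :
    enc3 n qa qb U M ρ Y e = enc3 n qa qb U M ρ Y' e := by
  classical
  have key : ∀ i r j a c σ, i < r → (e : ℕ) = r.choose 2 + i → IsV3 qa M ρ r j a c σ →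
      ∀ t, ent3 Y j t = ent3 Y' j t := by
    intro i r j a c σ h1 h2 h3 t
    unfold ent3
    by_cases h4 : j < M ∧ t < qa * qb
    · rw [dif_pos h4, dif_pos h4, h i r j a c σ h1 h2 h3 h4.1]
    · rw [dif_neg h4, dif_neg h4]
  unfold enc3
  rw [decide_eq_decide]
  constructor
  · rintro ⟨i, r, h1, h2, h3⟩
    refine ⟨i, r, h1, h2, ?_⟩
    rcases h3 with h3 | h3 | h3 | h3
    · exact Or.inl h3
    · exact Or.inr (Or.inl h3)
    · obtain ⟨h4, j, a, c, σ, h5, h6, h7⟩ := h3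
      refine Or.inr (Or.inr (Or.inl ⟨h4, j, a, c, σ, h5, ?_, h7⟩))
      rw [← key i r j a c σ h1 h2 h5]
      exact h6
    · exact Or.inr (Or.inr (Or.inr h3))
  · rintro ⟨i, r, h1, h2, h3⟩
    refine ⟨i, r, h1, h2, ?_⟩
    rcases h3 with h3 | h3 | h3 | h3
    · exact Or.inl h3
    · exact Or.inr (Or.inl h3)
    · obtain ⟨h4, j, a, c, σ, h5, h6, h7⟩ := h3
      refine Or.inr (Or.inr (Or.inl ⟨h4, j, a, c, σ, h5, ?_, h7⟩))
      rw [key i r j a c σ h1 h2 h5]
      exact h6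
    · exact Or.inr (Or.inr (Or.inr h3))

theorem enc3_agree {n qa qb U M L b B : ℕ} {ρ : ℕ → ℕ}
    (hL : ∀ j < M, L + j * b + B ≤ (ρ j).choose 2)
    (hR : ∀ j < M, (ρ j + qa * 9).choose 2 + B ≤ L + (j + 1) * b)
    (Y Y' : Fin M → Fin (qa * qb) → ZMod 3) (i j : Fin M)
    (h : ∀ k, k ≠ i → k ≠ j → Y k = Y' k) :
    AgreeI L b B i j (enc3 n qa qb U M ρ Y) (enc3 n qa qb U M ρ Y') := by
  intro e h1 h2
  apply enc3_congr
  intro i' r k a c σ h3 h4 h5 hk
  have h6 := in_block hL hR h3 h5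
  apply h
  · intro h7
    apply h1
    unfold InI
    rw [h4, ← h7]
    exact h6
  · intro h7
    apply h2
    unfold InI
    rw [h4, ← h7]
    exact h6

theorem enc3_mix {n qa qb U M L b B : ℕ} {ρ : ℕ → ℕ}
    (hL : ∀ j < M, L + j * b + B ≤ (ρ j).choose 2)
    (hR : ∀ j < M, (ρ j + qa * 9).choose 2 + B ≤ L + (j + 1) * b)
    (Y Y' : Fin M → Fin (qa * qb) → ZMod 3) (j : Fin M) :
    mixIn L b j (enc3 n qa qb U M ρ Y) (enc3 n qa qb U M ρ Y') =
      enc3 n qa qb U M ρ (Function.update Y j (Y' j)) := by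
  funext e
  unfold mixIn
  by_cases h0 : InBlk L b j e
  · rw [if_pos h0]
    apply enc3_congr
    intro i r k a c σ h3 h4 h5 hk
    have h6 := in_block hL hR h3 h5
    obtain ⟨h7, h8⟩ := h0
    rw [h4] at h7 h8
    have h9 : k * b < ((j : ℕ) + 1) * b := by omega
    have h10 : (j : ℕ) * b < (k + 1) * b := by omega
    have h11 := lt_of_mul_lt_mul_right h9 (Nat.zero_le b)
    have h12 := lt_of_mul_lt_mul_right h10 (Nat.zero_le b)
    have h13 : (⟨k, hk⟩ : Fin M) = j := by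
      apply Fin.ext
      show k = (j : ℕ)
      omega
    rw [h13, Function.update_self]
  · rw [if_neg h0]
    apply enc3_congr
    intro i r k a c σ h3 h4 h5 hk
    have h6 := in_block hL hR h3 h5
    have h13 : (⟨k, hk⟩ : Fin M) ≠ j := by
      intro h7
      apply h0
      unfold InBlk
      rw [h4, ← h7]
      show L + k * b ≤ _ ∧ _ < L + (k + 1) * b
      omega
    rw [Function.update_of_ne h13]

end Pool.Agent.HQ
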