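import Mathlib

/-!
# The parameters
-/

set_option autoImplicit false

namespace Pool.Agent.HQ

/-- the conditions of `lower3` -/
def Par3 (D n s k T S M qa qb r0 μ κ : ℕ) : Prop :=
  2 ≤ M ∧ M + 1 ≤ s ∧ 1 ≤ r0 ∧ qb + (s - (M + 1)) ≤ r0 ∧ r0 ≤ n ∧
    r0.choose 2 + M * ((qa * 9 + 2 * μ + 1) * n) ≤ n.choose 2 ∧ 1 ≤ κ ∧ 1 ≤ μ * r0 ∧
    88 * (3 * k ^ 2 * κ * (T + 2 * (μ * r0)) + M * T) < κ * (μ * r0) * (M * (M - 1)) ∧
    6800 * (D * k * κ * S + 1) ≤ qa * qb ∧ T ≤ 2 ^ (2 * S)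

private theorem two_choose (n : ℕ) : 2 * n.choose 2 = n * (n - 1) := by
  rw [Nat.choose_two_right]
  exact Nat.mul_div_cancel' (Nat.even_mul_pred_self n).two_dvd

private theorem rows {n M qa μ r0 : ℕ} (hn : 512 ≤ n)
    (hY : 64 * (M * (qa * 9 + 2 * μ + 1)) ≤ 7 * n) (hr0 : r0 = n - n / 4) :
    r0.choose 2 + M * ((qa * 9 + 2 * μ + 1) * n) ≤ n.choose 2 := by
  refine Nat.le_of_mul_le_mul_left ?_ (show 0 < 2 by norm_num)
  rw [Nat.mul_add, two_choose, two_choose]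
  obtain ⟨w, e, hw, he⟩ : ∃ w e, n = 4 * w + e ∧ e < 4 := ⟨n / 4, n % 4, by omega, by omega⟩
  obtain ⟨Y, hYd⟩ : ∃ Y, Y = M * (qa * 9 + 2 * μ + 1) := ⟨_, rfl⟩
  rw [← hYd] at hY
  have h2 : M * ((qa * 9 + 2 * μ + 1) * n) = Y * n := by rw [hYd]; ring
  rw [h2]
  have h3 : 32 * (2 * (Y * n)) ≤ 32 * (w * (7 * w - 1)) := by
    obtain ⟨v, hv⟩ : ∃ v, w = v + 100 := ⟨w - 100, by omega⟩
    have h4 : n ≤ 4 * w + 3 := by omega
    have h5 : 7 * w - 1 = 7 * v + 699 := by omega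
    calc 32 * (2 * (Y * n)) = 64 * Y * n := by ring
      _ ≤ 7 * n * n := Nat.mul_le_mul_right _ hY
      _ ≤ 7 * (4 * w + 3) * (4 * w + 3) := by gcongr
      _ ≤ 32 * (w * (7 * w - 1)) := by
        rw [h5, hv]
        nlinarith
  have h4 : 2 * (Y * n) ≤ w * (7 * w - 1) := Nat.le_of_mul_le_mul_left h3 (by norm_num)
  have hr : r0 = 3 * w + e := by omega
  have h5 : r0 * (r0 - 1) + w * (7 * w - 1) ≤ n * (n - 1) := by
    obtain ⟨v, hv⟩ : ∃ v, w = v + 1 := ⟨w - 1, by omega⟩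
    have h6 : r0 - 1 = 3 * v + 2 + e := by omega
    have h7 : 7 * w - 1 = 7 * v + 6 := by omega
    have h8 : n - 1 = 4 * v + 3 + e := by omega
    rw [h6, h7, h8, hr, hw, hv]
    nlinarith
  omega

theorem num3 (D : ℕ) : ∃ C : ℕ, ∀ n s k T S : ℕ, 2 ≤ n → 1 ≤ k → n.choose 2 ≤ T → 1 ≤ S →
    n.choose 2 ≤ 2 ^ S → 2 * s ≤ n + 1 → C * k ^ 2 * T ≤ n.choose 2 * s →
    C * k ^ 3 * T ^ 2 * S ≤ (n.choose 2) ^ 3 →
    ∃ M qa qb r0 μ κ : ℕ, Par3 D n s k T S M qa qb r0 μ κ := by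
  refine ⟨2 ^ 58 * (D + 1), fun n s k T S hn hk hT hS hNS h2s h1 h2 => ?_⟩
  obtain ⟨N, hN⟩ : ∃ N, N = n.choose 2 := ⟨_, rfl⟩
  have hN0 : 0 < N := by rw [hN]; exact Nat.choose_pos hn
  have hNa : 2 * N ≤ n * n := by
    rw [hN, two_choose]
    exact Nat.mul_le_mul_left _ (Nat.sub_le _ _)
  have hNb : n * n ≤ 4 * N := by
    have h3 : 4 * N = 2 * (n * (n - 1)) := by rw [← two_choose, hN]; ring
    rw [h3]
    calc n * n ≤ n * (2 * (n - 1)) := Nat.mul_le_mul_left _ (by omega)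
      _ = 2 * (n * (n - 1)) := by ring
  rw [← hN] at hT hNS h1 h2
  obtain ⟨p, hp⟩ : ∃ p, p = T / N + 1 := ⟨_, rfl⟩
  have hp1 : 1 ≤ p := by
    rw [hp]
    exact Nat.succ_le_succ (Nat.zero_le _)
  have hTp : T ≤ N * p := by
    rw [hp]
    exact (Nat.lt_mul_div_succ _ hN0).le
  have hpT : N * p ≤ 2 * T := by
    have h3 : N * (T / N) ≤ T := Nat.mul_div_le _ _
    have h4 : N * p = N * (T / N) + N := by rw [hp]; ring
    omega
  have hT0 : 0 < T := by omega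
  have hk2 : 1 ≤ k ^ 2 := Nat.one_le_pow _ _ hk
  have hk3 : 1 ≤ k ^ 3 := Nat.one_le_pow _ _ hk
  obtain ⟨M, hM⟩ : ∃ M, M = 2 ^ 18 * k ^ 2 * p := ⟨_, rfl⟩
  have hM1 : 2 ^ 18 ≤ M := by
    rw [hM]
    calc 2 ^ 18 = 2 ^ 18 * 1 * 1 := by ring
      _ ≤ 2 ^ 18 * k ^ 2 * p := Nat.mul_le_mul (Nat.mul_le_mul_left _ hk2) hp1
  have hMs : 2 ^ 11 * M ≤ s := by
    refine Nat.le_of_mul_le_mul_left ?_ hN0
    calc N * (2 ^ 11 * M) = 2 ^ 29 * k ^ 2 * (N * p) := by rw [hM]; ring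
      _ ≤ 2 ^ 29 * k ^ 2 * (2 * T) := Nat.mul_le_mul_left _ hpT
      _ = 2 ^ 30 * (k ^ 2 * T) := by ring
      _ ≤ 2 ^ 58 * (D + 1) * (k ^ 2 * T) := by
          refine Nat.mul_le_mul_right _ ?_
          calc 2 ^ 30 ≤ 2 ^ 58 * 1 := by norm_num
            _ ≤ 2 ^ 58 * (D + 1) := Nat.mul_le_mul_left _ (by omega)
      _ = 2 ^ 58 * (D + 1) * k ^ 2 * T := by ring
      _ ≤ N * s := h1
  have hMn : 2 ^ 11 * M ≤ n := by omega
  have hMn' : 128 * M ≤ n := by omega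
  have hn512 : 512 ≤ n := by omega
  obtain ⟨κ, hκ⟩ : ∃ κ, κ = 2 ^ 15 * p := ⟨_, rfl⟩
  have hκ1 : 1 ≤ κ := by
    rw [hκ]
    omega
  obtain ⟨qb, hqb⟩ : ∃ qb, qb = n / 8 := ⟨_, rfl⟩
  have hqb1 : n ≤ 9 * qb := by omega
  obtain ⟨r0, hr0⟩ : ∃ r0, r0 = n - n / 4 := ⟨_, rfl⟩
  have hr01 : 3 * n ≤ 4 * r0 := by omega
  have hr02 : r0 ≤ n := by omega
  obtain ⟨μ, hμ⟩ : ∃ μ, μ = n / (64 * M) := ⟨_, rfl⟩
  have hμ1 : 1 ≤ μ := by
    rw [hμ, Nat.le_div_iff_mul_le (by omega)]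
    omega
  have hμ2 : 64 * M * μ ≤ n := by
    rw [hμ]
    exact Nat.mul_div_le _ _
  have hμ3 : n ≤ 128 * (M * μ) := by
    have h3 : n < 64 * M * (μ + 1) := by
      rw [hμ]
      exact Nat.lt_mul_div_succ _ (by omega)
    have h4 : 64 * M * (μ + 1) = 64 * (M * μ) + 64 * (M * 1) := by ring
    have h5 : M * 1 ≤ M * μ := Nat.mul_le_mul_left _ hμ1
    omega
  obtain ⟨qa, hqa⟩ : ∃ qa, qa = n / (128 * M) := ⟨_, rfl⟩
  have hqa1 : 1 ≤ qa := by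
    rw [hqa, Nat.le_div_iff_mul_le (by omega)]
    omega
  have hqa2 : 128 * M * qa ≤ n := by
    rw [hqa]
    exact Nat.mul_div_le _ _
  have hqa3 : n ≤ 256 * (M * qa) := by
    have h3 : n < 128 * M * (qa + 1) := by
      rw [hqa]
      exact Nat.lt_mul_div_succ _ (by omega)
    have h4 : 128 * M * (qa + 1) = 128 * (M * qa) + 128 * (M * 1) := by ring
    have h5 : M * 1 ≤ M * qa := Nat.mul_le_mul_left _ hqa1
    omega
  have hY : 64 * (M * (qa * 9 + 2 * μ + 1)) ≤ 7 * n := by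
    have h3 : 64 * (2 * (M * (qa * 9 + 2 * μ + 1))) =
        9 * (128 * M * qa) + 4 * (64 * M * μ) + 128 * M := by ring
    omega
  obtain ⟨B, hB⟩ : ∃ B, B = μ * r0 := ⟨_, rfl⟩
  have hB1 : 1 ≤ B := by
    rw [hB]
    have : 0 < r0 := by omega
    have h3 : 0 < μ * r0 := Nat.mul_pos (by omega) this
    exact h3
  have hNB : N ≤ 86 * (M * B) := by
    have h3 : 6 * N ≤ 512 * (M * B) := by
      calc 6 * N = 3 * (2 * N) := by ring
        _ ≤ 3 * (n * n) := Nat.mul_le_mul_left _ hNa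
        _ = 3 * n * n := by ring
        _ ≤ 4 * r0 * (128 * (M * μ)) := Nat.mul_le_mul hr01 hμ3
        _ = 512 * (M * B) := by rw [hB]; ring
    omega
  have hBT : 2 * B ≤ T := by
    have h3 : 64 * M * B ≤ 4 * N := by
      calc 64 * M * B = 64 * M * μ * r0 := by rw [hB]; ring
        _ ≤ n * n := Nat.mul_le_mul hμ2 hr02
        _ ≤ 4 * N := hNb
    have h4 : 2 * 1 * B ≤ M * B := Nat.mul_le_mul_right _ (by omega)
    have h5 : 64 * M * B = 64 * (M * B) := by ring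
    omega
  refine ⟨M, qa, qb, r0, μ, κ, by omega, by omega, by omega, by omega, hr02, ?_, hκ1, ?_, ?_,
    ?_, ?_⟩
  · exact rows hn512 hY hr0
  · rw [← hB]
    exact hB1
  · rw [← hB]
    have h3 : κ * M * N ≤ 172 * (κ * B * (M * (M - 1))) := by
      calc κ * M * N ≤ κ * M * (86 * (M * B)) := Nat.mul_le_mul_left _ hNB
        _ = 86 * (κ * B * (M * M)) := by ring
        _ ≤ 86 * (κ * B * (M * (2 * (M - 1)))) := by
            refine Nat.mul_le_mul_left _ (Nat.mul_le_mul_left _ (Nat.mul_le_mul_left _ ?_))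
            omega
        _ = 172 * (κ * B * (M * (M - 1))) := by ring
    have h4 : 2 ^ 18 * (κ * k ^ 2 * T) ≤ κ * M * N := by
      calc 2 ^ 18 * (κ * k ^ 2 * T) ≤ 2 ^ 18 * (κ * k ^ 2 * (N * p)) :=
            Nat.mul_le_mul_left _ (Nat.mul_le_mul_left _ hTp)
        _ = κ * M * N := by rw [hM]; ring
    have h6 : 2 ^ 15 * (M * T) ≤ κ * M * N := by
      calc 2 ^ 15 * (M * T) ≤ 2 ^ 15 * (M * (N * p)) :=
            Nat.mul_le_mul_left _ (Nat.mul_le_mul_left _ hTp)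
        _ = κ * M * N := by rw [hκ]; ring
    have h7 : 88 * (3 * k ^ 2 * κ * (T + 2 * B) + M * T) ≤
        528 * (κ * k ^ 2 * T) + 88 * (M * T) := by
      calc 88 * (3 * k ^ 2 * κ * (T + 2 * B) + M * T)
          ≤ 88 * (3 * k ^ 2 * κ * (T + T) + M * T) := by gcongr
        _ = 528 * (κ * k ^ 2 * T) + 88 * (M * T) := by ring
    have h8 : 0 < M * T := Nat.mul_pos (by omega) hT0
    omega
  · refine Nat.le_of_mul_le_mul_left ?_ (show 0 < 1152 * M by omega)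
    have h3 : N ≤ 1152 * M * (qa * qb) := by
      have h4 : 2 * N ≤ 2 * (1152 * M * (qa * qb)) := by
        calc 2 * N ≤ n * n := hNa
          _ ≤ 256 * (M * qa) * (9 * qb) := Nat.mul_le_mul hqa3 hqb1
          _ = 2 * (1152 * M * (qa * qb)) := by ring
      omega
    refine le_trans ?_ h3
    refine Nat.le_of_mul_le_mul_left ?_ (show 0 < N * N from Nat.mul_pos hN0 hN0)
    have h5 : D * k * κ * S + 1 ≤ (D + 1) * (k * κ * S) := by
      have h6 : 0 < k * κ * S := Nat.mul_pos (Nat.mul_pos (by omega) (by omega)) (by omega)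
      have h7 : (D + 1) * (k * κ * S) = D * k * κ * S + k * κ * S := by ring
      omega
    have h8 : (N * p) * (N * p) ≤ (2 * T) * (2 * T) := Nat.mul_le_mul hpT hpT
    calc N * N * (1152 * M * (6800 * (D * k * κ * S + 1)))
        = 7833600 * (N * N * M) * (D * k * κ * S + 1) := by ring
      _ ≤ 7833600 * (N * N * M) * ((D + 1) * (k * κ * S)) := Nat.mul_le_mul_left _ h5
      _ = 7833600 * 2 ^ 33 * ((D + 1) * k ^ 3 * S) * ((N * p) * (N * p)) := by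
          rw [hM, hκ]; ring
      _ ≤ 7833600 * 2 ^ 33 * ((D + 1) * k ^ 3 * S) * ((2 * T) * (2 * T)) :=
          Nat.mul_le_mul_left _ h8
      _ = 31334400 * 2 ^ 33 * ((D + 1) * k ^ 3 * S * T ^ 2) := by ring
      _ ≤ 2 ^ 58 * ((D + 1) * k ^ 3 * S * T ^ 2) := Nat.mul_le_mul_right _ (by norm_num)
      _ = 2 ^ 58 * (D + 1) * k ^ 3 * T ^ 2 * S := by ring
      _ ≤ N ^ 3 := h2
      _ = N * N * N := by ring
  · have h3 : T ^ 2 ≤ (2 ^ (2 * S)) ^ 2 := by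
      calc T ^ 2 = 1 * 1 * T ^ 2 * 1 := by ring
        _ ≤ 2 ^ 58 * (D + 1) * k ^ 3 * T ^ 2 * S := by
            refine Nat.mul_le_mul (Nat.mul_le_mul_right _ (Nat.mul_le_mul ?_ hk3)) hS
            calc 1 ≤ 2 ^ 58 * 1 := by norm_num
              _ ≤ 2 ^ 58 * (D + 1) := Nat.mul_le_mul_left _ (by omega)
        _ ≤ N ^ 3 := h2
        _ ≤ (2 ^ S) ^ 3 := Nat.pow_le_pow_left hNS 3
        _ = 2 ^ (3 * S) := by rw [← pow_mul, Nat.mul_comm]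
        _ ≤ 2 ^ (4 * S) := Nat.pow_le_pow_right (by norm_num) (by omega)
        _ = (2 ^ (2 * S)) ^ 2 := by rw [← pow_mul]; congr 1; ring
    exact (Nat.pow_le_pow_iff_left (by norm_num)).mp h3

end Pool.Agent.HQ
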