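import Mathlib
import Pool.Agent.Lib.MP_69a69c_lc_SQ.RowsQ

/-!
# The rows of the groups, with margins
-/

set_option autoImplicit false

namespace Pool.Agent.HQ

open Pool.Agent.SQ (rowsQ choose_two_mono choose_two_add)

/-- the positions of `M` groups of `h` rows with margins of `μ` rows -/
theorem rows3 {n r0 M h μ : ℕ} (hn : r0.choose 2 + M * ((h + 2 * μ + 1) * n) ≤ n.choose 2)
    (hr : 1 ≤ r0) (hrn : r0 ≤ n) :
    ∃ ρ : ℕ → ℕ,
      (∀ j < M, r0.choose 2 + j * ((h + 2 * μ + 1) * n) + μ * r0 ≤ (ρ j).choose 2) ∧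
      (∀ j < M, (ρ j + h).choose 2 + μ * r0 ≤ r0.choose 2 + (j + 1) * ((h + 2 * μ + 1) * n)) ∧
      (∀ j < M, r0 ≤ ρ j) ∧ (∀ j < M, ρ j + h ≤ n) ∧
      ∀ j j', j < j' → j' < M → ρ j + h ≤ ρ j' := by
  obtain ⟨ρ, h1, h2, h3, h4, h5⟩ := rowsQ (h := h + 2 * μ) hn hr hrn
  refine ⟨fun j => ρ j + μ, fun j hj => ?_, fun j hj => ?_, fun j hj => ?_, fun j hj => ?_,
    fun j j' hjj hj' => ?_⟩
  · have a1 := h1 j hj
    have a2 := choose_two_add (ρ j) μ
    have a3 : μ * r0 ≤ μ * ρ j := Nat.mul_le_mul_left _ (h3 j hj)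
    simp only
    omega
  · have a1 := h2 j hj
    have a2 := choose_two_add (ρ j + μ + h) μ
    have a3 : μ * r0 ≤ μ * (ρ j + μ + h) :=
      Nat.mul_le_mul_left _ ((h3 j hj).trans (by omega))
    have a4 : ρ j + μ + h + μ = ρ j + (h + 2 * μ) := by omega
    rw [a4] at a2
    simp only
    omega
  · have := h3 j hj
    simp only
    omega
  · have := h4 j hj
    simp only
    omega
  · have := h5 j j' hjj hj'
    simp only
    omega

end Pool.Agent.HQ
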