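import Mathlib
import Pool.Agent.Lib.MP_b573ec_lc_HM.Trans
import Pool.Agent.Lib.MP_b573ec_lc_HM.Corrupt
import Pool.Agent.Lib.MP_b573ec_lc_HQ.Clique3a
import Pool.Agent.Lib.MP_b573ec_lc_HQ.Clique3b
import Pool.Agent.Lib.MP_b573ec_lc_HQ.Agree3
import Pool.Agent.Lib.MP_b573ec_lc_HQ.Rows3
import Pool.Agent.Lib.MP_b573ec_lc_HQ.Num3

/-!
# Randomized lower bound for CLIQUE: two-sided and one-sided error
-/

set_option autoImplicit false

namespace Pool.Agent.HQ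

open Pool.Agent.LT (Inp)
open Pool.Agent.ST (mixIn)
open Pool.Agent.HM (NHeadProg HeadProg AgreeI corruptM toN_det toN_accepts outputs_unique
  HeadTwoSided HeadOneSided transcripts)
open Pool.Agent.SQ (clique)

private theorem sum_margin (M : ℕ) (f : ℕ → ℕ) :
    ∑ c : Fin M, f ((c : ℕ) + 1) = ∑ c ∈ Finset.Icc 1 M, f c := by
  rw [Fin.sum_univ_eq_sum_range (fun c => f (c + 1)) M, Finset.range_eq_Ico,
    Finset.sum_Ico_add' (fun c => f c) 0 M 1]
  rfl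

private theorem lb_core (D n k T S w : ℕ) (hD : ∀ (n k T w S L b m B κ : ℕ)
    (P : NHeadProg n k w), 1 ≤ k →
    1 ≤ S → 1 ≤ κ → n ≤ 2 ^ S → w ≤ 2 ^ S → T ≤ 2 ^ (2 * S) → L + m * b ≤ n →
    ∃ Tr : ℕ → Fin m → Fin m → Inp n → Fin (2 ^ (D * k * κ * S)) → Prop,
      (∀ c ≤ B, ∀ (i j : Fin m) (x y : Inp n) θ, i < j → AgreeI L b B i j x y →
        Tr c i j x θ → Tr c i j y θ → Tr c i j (mixIn L b j x y) θ) ∧
      (∀ c (i j : Fin m) x θ, Tr c i j x θ → P.Accepts T x) ∧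
      (∀ x, P.Accepts T x → κ * ∑ c ∈ Finset.Icc 1 B,
        {ij : Fin m × Fin m | ij.1 < ij.2 ∧ ¬ ∃ θ, Tr c ij.1 ij.2 x θ}.ncard ≤
          3 * k ^ 2 * κ * (T + 2 * B) + m * T) ∧
      (P.Det → ∀ c (i j : Fin m) x θ θ', Tr c i j x θ → Tr c i j x θ' → θ = θ'))
    (hk : 1 ≤ k) (hS : 1 ≤ S) (hn : n.choose 2 ≤ 2 ^ S) (hw : w ≤ 2 ^ S)
    {s M qa qb r0 μ κ : ℕ} (hM2 : 2 ≤ M) (hs : M + 1 ≤ s) (hr1 : 1 ≤ r0)
    (hU : qb + (s - (M + 1)) ≤ r0) (hr0 : r0 ≤ n)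
    (hrows : r0.choose 2 + M * ((qa * 9 + 2 * μ + 1) * n) ≤ n.choose 2)
    (hκ : 1 ≤ κ) (hμ : 1 ≤ μ * r0)
    (h88 : 88 * (3 * k ^ 2 * κ * (T + 2 * (μ * r0)) + M * T) < κ * (μ * r0) * (M * (M - 1)))
    (hE : 6800 * (D * k * κ * S + 1) ≤ qa * qb) (hT : T ≤ 2 ^ (2 * S))
    {Γ : Type} [Fintype Γ] [Nonempty Γ] (P : Γ → HeadProg (n.choose 2) k w) (A B : ℕ)
    (hA : ∀ x, clique n s x = false → A ≤ Nat.card {c // (P c).Outputs T x false})
    (hB : ∀ x, clique n s x = true → Nat.card {c // (P c).Outputs T x false} ≤ B)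
    (hAB : 2 * B ≤ A) (hA2 : 2 * Fintype.card Γ ≤ 3 * A) : False := by
  classical
  obtain ⟨U, hUs⟩ : ∃ U, U = s - (M + 1) := ⟨_, rfl⟩
  have hsU : s = M + 1 + U := by omega
  rw [← hUs] at hU
  obtain ⟨ρ, g1, g2, g3, g4, g5⟩ := rows3 hrows hr1 hr0
  have h1 := fun c => hD (n.choose 2) k T w S (r0.choose 2) ((qa * 9 + 2 * μ + 1) * n) M (μ * r0)
    κ ((P c).toN false) hk hS hκ hn hw hT hrows
  choose Tr hR hO hG hU' using h1
  let enc : (Fin M → Fin (qa * qb) → ZMod 3) → Inp (n.choose 2) := fun Y => enc3 n qa qb U M ρ Y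
  let Tr' : Γ → Fin (μ * r0) → Fin M → Fin M → (Fin M → Fin (qa * qb) → ZMod 3) →
      Option (Fin (2 ^ (D * k * κ * S))) := fun γ c i j Y =>
    if h : ∃ θ, Tr γ ((c : ℕ) + 1) i j (enc Y) θ then some h.choose else none
  have hTr1 : ∀ γ (c : Fin (μ * r0)) i j Y θ, Tr' γ c i j Y = some θ →
      Tr γ ((c : ℕ) + 1) i j (enc Y) θ := by
    intro γ c i j Y θ h
    by_cases h' : ∃ θ, Tr γ ((c : ℕ) + 1) i j (enc Y) θ
    · have : Tr' γ c i j Y = some h'.choose := dif_pos h'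
      rw [this] at h
      rw [← Option.some.inj h]
      exact h'.choose_spec
    · have : Tr' γ c i j Y = none := dif_neg h'
      rw [this] at h
      exact absurd h (by simp)
  have hTr2 : ∀ γ (c : Fin (μ * r0)) i j Y θ, Tr γ ((c : ℕ) + 1) i j (enc Y) θ →
      Tr' γ c i j Y = some θ := by
    intro γ c i j Y θ h
    have h' : ∃ θ, Tr γ ((c : ℕ) + 1) i j (enc Y) θ := ⟨θ, h⟩
    have : Tr' γ c i j Y = some h'.choose := dif_pos h'
    rw [this, hU' γ (toN_det _ _) _ i j (enc Y) _ θ h'.choose_spec h]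
  have hTr3 : ∀ γ (c : Fin (μ * r0)) i j Y, Tr' γ c i j Y = none ↔
      ¬ ∃ θ, Tr γ ((c : ℕ) + 1) i j (enc Y) θ := by
    intro γ c i j Y
    constructor
    · intro h h'
      have : Tr' γ c i j Y = some h'.choose := dif_pos h'
      rw [this] at h
      exact absurd h (by simp)
    · intro h
      exact dif_neg h
  have hlang : ∀ Y : Fin M → Fin (qa * qb) → ZMod 3,
      clique n s (enc Y) = true ↔ ∃ t, ∑ k, Y k t = 2 := by
    intro Y
    rw [hsU]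
    constructor
    · intro h
      exact sum_of_clique (by omega) (fun j hj => hU.trans (g3 j hj)) g5 Y h
    · rintro ⟨t, ht⟩
      exact clique_of_sum (by omega) g4 (by omega) (fun j hj => hU.trans (g3 j hj)) g5 Y t ht
  have hN4 : 4000 ≤ qa * qb := by
    have : 6800 * 1 ≤ 6800 * (D * k * κ * S + 1) := Nat.mul_le_mul_left _ (by omega)
    omega
  have hK : 2 ^ 16 * (2 ^ (D * k * κ * S)) ^ 11 < 2 ^ (qa * qb / 400) := by
    rw [← pow_mul, ← pow_add]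
    apply Nat.pow_lt_pow_right (by norm_num)
    have h2 : 17 * (D * k * κ * S + 1) ≤ qa * qb / 400 := by
      rw [Nat.le_div_iff_mul_le (by norm_num)]
      calc 17 * (D * k * κ * S + 1) * 400 = 6800 * (D * k * κ * S + 1) := by ring
        _ ≤ qa * qb := hE
    omega
  refine corruptM M (qa * qb) (2 ^ (D * k * κ * S)) (μ * r0) hM2 hN4 hμ
    (fun γ Y => (P γ).Outputs T (enc Y) false) Tr' ?_ ?_ ?_ A B ?_ ?_ hAB hA2 hK
  · intro γ c i j Y Y' θ hij h h1 h2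
    apply hTr2
    have h3 := hR γ ((c : ℕ) + 1) (by have := c.2; omega) i j (enc Y) (enc Y') θ hij
      (enc3_agree g1 g2 Y Y' i j h) (hTr1 _ _ _ _ _ _ h1) (hTr1 _ _ _ _ _ _ h2)
    rw [enc3_mix g1 g2 Y Y' j] at h3
    exact h3
  · intro γ c i j Y hij h
    have h1 : ∃ θ, Tr γ ((c : ℕ) + 1) i j (enc Y) θ := by
      by_contra h2
      exact h ((hTr3 γ c i j Y).2 h2)
    obtain ⟨θ, hθ⟩ := h1
    exact (toN_accepts _ _ _ _).1 (hO γ _ i j (enc Y) θ hθ)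
  · intro γ Y h
    have h1 := hG γ (enc Y) ((toN_accepts _ _ _ _).2 h)
    have h2 : ∀ c : Fin (μ * r0), {ij : Fin M × Fin M | ij.1 < ij.2 ∧
        Tr' γ c ij.1 ij.2 Y = none} = {ij : Fin M × Fin M | ij.1 < ij.2 ∧
          ¬ ∃ θ, Tr γ ((c : ℕ) + 1) ij.1 ij.2 (enc Y) θ} := by
      intro c
      ext ij
      simp only [Set.mem_ofPred_eq, hTr3]
    rw [Finset.sum_congr rfl fun c _ => congrArg Set.ncard (h2 c),
      sum_margin (μ * r0) fun c => {ij : Fin M × Fin M | ij.1 < ij.2 ∧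
          ¬ ∃ θ, Tr γ c ij.1 ij.2 (enc Y) θ}.ncard]
    set sb := ∑ c ∈ Finset.Icc 1 (μ * r0), {ij : Fin M × Fin M | ij.1 < ij.2 ∧
          ¬ ∃ θ, Tr γ c ij.1 ij.2 (enc Y) θ}.ncard with hsb
    have h3 : κ * (44 * sb) ≤ κ * (μ * r0 * (M * (M - 1))) := by
      calc κ * (44 * sb) = 44 * (κ * sb) := by ring
        _ ≤ 44 * (3 * k ^ 2 * κ * (T + 2 * (μ * r0)) + M * T) := Nat.mul_le_mul_left _ h1
        _ ≤ 88 * (3 * k ^ 2 * κ * (T + 2 * (μ * r0)) + M * T) :=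
          Nat.mul_le_mul_right _ (by norm_num)
        _ ≤ κ * (μ * r0) * (M * (M - 1)) := h88.le
        _ = κ * (μ * r0 * (M * (M - 1))) := by ring
    exact Nat.le_of_mul_le_mul_left h3 hκ
  · intro Y h
    apply hA
    rw [← Bool.not_eq_true, hlang]
    rintro ⟨t, ht⟩
    exact h t ht
  · intro Y h
    apply hB
    rw [hlang]
    exact h.exists

private theorem lb_count {n k T w ρ : ℕ} (P : (Fin ρ → Bool) → HeadProg n k w) (x : Inp n) :
    Nat.card {c : Fin ρ → Bool // (P c).Outputs T x true} +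
      Nat.card {c : Fin ρ → Bool // (P c).Outputs T x false} ≤ 2 ^ ρ := by
  classical
  have hcard : Fintype.card (Fin ρ → Bool) = 2 ^ ρ := by simp
  rw [Nat.card_eq_fintype_card, Nat.card_eq_fintype_card, Fintype.card_subtype,
    Fintype.card_subtype, ← hcard, ← Finset.card_univ, ← Finset.card_union_of_disjoint]
  · exact Finset.card_le_card (Finset.subset_univ _)
  · rw [Finset.disjoint_left]
    intro c h1 h2
    rw [Finset.mem_filter] at h1 h2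
    exact absurd (outputs_unique (P c) T x h1.2 h2.2) (by simp)

theorem lower3 : ∃ C : ℕ, ∀ n s k T S w : ℕ, 2 ≤ n → 1 ≤ k → n.choose 2 ≤ T → 1 ≤ S →
    n.choose 2 ≤ 2 ^ S → w ≤ 2 ^ S → 2 * s ≤ n + 1 → C * k ^ 2 * T ≤ n.choose 2 * s →
    C * k ^ 3 * T ^ 2 * S ≤ (n.choose 2) ^ 3 →
      ¬ HeadTwoSided (clique n s) k T w ∧ ¬ HeadOneSided (clique n s) k T w := by
  obtain ⟨D, hD⟩ := transcripts
  obtain ⟨C, hC⟩ := num3 D
  refine ⟨C, fun n s k T S w hn hk hNT hS hnS hw hs hC1 hC2 => ?_⟩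
  obtain ⟨M, qa, qb, r0, μ, κ, a1, a2, a3, a4, a5, a6, a7, a8, a9, a10, a11⟩ :=
    hC n s k T S hn hk hNT hS hnS hs hC1 hC2
  refine ⟨?_, ?_⟩
  · rintro ⟨ρ, P, h⟩
    have hcard : Fintype.card (Fin ρ → Bool) = 2 ^ ρ := by simp
    refine lb_core D n k T S w hD hk hS hnS hw a1 a2 a3 a4 a5 a6 a7 a8 a9 a10 a11 P
      ((2 * 2 ^ ρ + 2) / 3) (2 ^ ρ / 3) ?_ ?_ (by omega) (by rw [hcard]; omega)
    · intro x hx
      have h1 := h x
      rw [hx] at h1
      omega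
    · intro x hx
      have h1 := h x
      rw [hx] at h1
      have h2 := lb_count (T := T) P x
      omega
  · rintro ⟨ρ, P, h, h'⟩
    have hcard : Fintype.card (Fin ρ → Bool) = 2 ^ ρ := by simp
    refine lb_core D n k T S w hD hk hS hnS hw a1 a2 a3 a4 a5 a6 a7 a8 a9 a10 a11 P
      (2 ^ ρ) (2 ^ ρ / 2) ?_ ?_ (by omega) (by rw [hcard]; omega)
    · intro x hx
      have h1 : Nat.card {c : Fin ρ → Bool // (P c).Outputs T x false} =
          Nat.card (Fin ρ → Bool) :=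
        Nat.card_congr (Equiv.subtypeUnivEquiv (fun c => h' x hx c))
      rw [h1, Nat.card_eq_fintype_card, hcard]
    · intro x hx
      have h1 := h x hx
      have h2 := lb_count (T := T) P x
      omega

end Pool.Agent.HQ
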