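import Mathlib
import Pool.Agent.Lib.MP_69a69c_lc_SQ.FinalQ
import Pool.Agent.Lib.MP_b573ec_lc_HQ.Lower3

/-!
# CLIQUE: randomized programs, and nondeterministic programs for the complement
-/

set_option autoImplicit false

namespace Pool.Agent.HQ

open Pool.Agent.HM (HeadTwoSided HeadOneSided HeadNondet)
open Pool.Agent.SQ (clique lowerC)

theorem result3 : ∃ C : ℕ, ∀ n s k T S w : ℕ, 2 ≤ n → 1 ≤ k → n.choose 2 ≤ T → 1 ≤ S →
    n.choose 2 ≤ 2 ^ S → w ≤ 2 ^ S → 2 * s ≤ n + 1 → C * k ^ 2 * T ≤ n.choose 2 * s →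
    C * k ^ 3 * T ^ 2 * S ≤ (n.choose 2) ^ 3 →
      ¬ HeadTwoSided (clique n s) k T w ∧ ¬ HeadOneSided (clique n s) k T w ∧
        ¬ HeadNondet (fun x => !clique n s x) k T w := by
  obtain ⟨C1, h1⟩ := lower3
  obtain ⟨C2, -, h2⟩ := lowerC
  refine ⟨C1 + C2 ^ (2 ^ 2), fun n s k T S w hn hk hT hS hnS hw hs hC1 hC2 => ?_⟩
  have a1 := h1 n s k T S w hn hk hT hS hnS hw hs
    (le_trans (by gcongr; exact Nat.le_add_right _ _) hC1)
    (le_trans (by gcongr; exact Nat.le_add_right _ _) hC2)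
  refine ⟨a1.1, a1.2, (h2 n s k 2 T S w hn hk le_rfl hT hS hnS hw hs ?_ ?_).1⟩
  · refine le_trans ?_ (hC1.trans (le_of_eq ?_))
    · gcongr
      exact Nat.le_add_left _ _
    · simp
  · refine le_trans ?_ (hC2.trans (le_of_eq ?_))
    · have e : 2 * 2 - 1 = 3 := rfl
      have e' : 2 - 1 = 1 := rfl
      rw [e, e', pow_one]
      gcongr
      exact Nat.le_add_left _ _
    · rfl

end Pool.Agent.HQ
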